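import Pool.Agent.T6.H21.PF.Tup

set_option autoImplicit false

/-!
Project PF, module R3: the number of bad random vectors.
-/

namespace Pool.Agent.T6.H21.PF

open scoped BigOperators
open Pool.Agent.T6.H7.PF InnerProductSpace

theorem bad_count (h2 : StmtR2) {n k p : ℕ} [Fact p.Prime] {ρ : ℝ}
    (hp : (k.factorial : ℝ) * (ρ ^ 2) ^ k < p) (B : Set (Fin k → Fin n → ℤ)) (hB : B.Finite)
    (hLI : ∀ b ∈ B, LinearIndependent ℝ fun i => toE (b i))
    (hρ : ∀ b ∈ B, ∀ i, ‖toE (b i)‖ ≤ ρ) :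
    {a : Fin n → ZMod p | ∃ b ∈ B, ∀ i, ∑ j, a j * (b i j : ZMod p) = 0}.ncard * p ^ k ≤
      B.ncard * p ^ n := by
  classical
  let F := hB.toFinset
  let A : (Fin k → Fin n → ℤ) → Finset (Fin n → ZMod p) := fun b =>
    (Set.toFinite {a : Fin n → ZMod p | ∀ i, ∑ j, a j * (b i j : ZMod p) = 0}).toFinset
  have hsub : {a : Fin n → ZMod p | ∃ b ∈ B, ∀ i, ∑ j, a j * (b i j : ZMod p) = 0} ⊆
      ↑(F.biUnion A) := by
    rintro a ⟨b, hb, ha⟩
    simp only [Finset.coe_biUnion, Set.mem_iUnion, Finset.mem_coe, exists_prop]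
    refine ⟨b, by simpa [F] using hb, ?_⟩
    simp only [A, Set.Finite.mem_toFinset]
    exact ha
  have h3 : {a : Fin n → ZMod p | ∃ b ∈ B, ∀ i, ∑ j, a j * (b i j : ZMod p) = 0}.ncard ≤
      ∑ b ∈ F, (A b).card := by
    refine le_trans ?_ Finset.card_biUnion_le
    rw [← Set.ncard_coe_finset (F.biUnion A)]
    exact Set.ncard_le_ncard hsub (F.biUnion A).finite_toSet
  have h4 : ∀ b ∈ F, (A b).card * p ^ k ≤ p ^ n := by
    intro b hb
    have hb' : b ∈ B := by simpa [F] using hb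
    have := h2 n k p b ρ (hLI b hb') (hρ b hb') hp
    rw [Set.ncard_eq_toFinset_card _ (Set.toFinite _)] at this
    exact this
  calc _ ≤ (∑ b ∈ F, (A b).card) * p ^ k := Nat.mul_le_mul_right _ h3
    _ = ∑ b ∈ F, (A b).card * p ^ k := Finset.sum_mul _ _ _
    _ ≤ ∑ _b ∈ F, p ^ n := Finset.sum_le_sum h4
    _ = _ := by rw [Finset.sum_const, smul_eq_mul, ← Set.ncard_eq_toFinset_card _ hB]

theorem num1 {C1 q u ρ T : ℝ} {n k : ℕ} (x : ℕ → ℝ) (hC1 : 1 ≤ C1) (hq : 0 < q) (hn : 1 ≤ n)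
    (hkn : k ≤ n) (hT1 : 1 ≤ T) (hTn : T ≤ n) (hu : u = 1 / (4 * C1) * Real.sqrt n * q)
    (hρ : ρ = n * (T * u)) (hx : ∀ i < k, 0 ≤ x i ∧ x i ≤ n) :
    ∏ i ∈ Finset.range k, (C1 ^ n * ρ ^ i * (x i * u) ^ (n - i) / Real.sqrt n ^ n) ≤
      (q ^ n) ^ k * ((4 : ℝ) ^ n)⁻¹ ^ k * ((n : ℝ) ^ (2 * k ^ 2) *
        (∏ i ∈ Finset.range k, x i) ^ (n - k)) := by
  have hnpos : (0 : ℝ) < n := by exact_mod_cast hn
  have hn1 : (1 : ℝ) ≤ n := by exact_mod_cast hn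
  have hs : 0 < Real.sqrt n := Real.sqrt_pos.2 hnpos
  have hupos : 0 < u := by rw [hu]; positivity
  have key : ∀ i < k, C1 ^ n * ρ ^ i * (x i * u) ^ (n - i) / Real.sqrt n ^ n ≤
      (q ^ n) * ((4 : ℝ) ^ n)⁻¹ * ((n : ℝ) ^ (2 * k) * x i ^ (n - k)) := by
    intro i hi
    have hxi := hx i hi
    have e1 : C1 ^ n * ρ ^ i * (x i * u) ^ (n - i) / Real.sqrt n ^ n =
        (q ^ n) * ((4 : ℝ) ^ n)⁻¹ * (((n : ℝ) * T) ^ i * x i ^ (n - i)) := by
      have e2 : ρ ^ i * (x i * u) ^ (n - i) = ((n : ℝ) * T) ^ i * x i ^ (n - i) * u ^ n := by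
        rw [hρ, show (n : ℝ) * (T * u) = (n * T) * u by ring, mul_pow, mul_pow]
        have : u ^ n = u ^ i * u ^ (n - i) := by rw [← pow_add]; congr 1; omega
        rw [this]; ring
      have e3 : C1 ^ n * u ^ n / Real.sqrt n ^ n = q ^ n * ((4 : ℝ) ^ n)⁻¹ := by
        rw [← mul_pow, ← div_pow, ← inv_pow, ← mul_pow]
        congr 1
        rw [hu]
        field_simp
      calc C1 ^ n * ρ ^ i * (x i * u) ^ (n - i) / Real.sqrt n ^ n
          = C1 ^ n * (ρ ^ i * (x i * u) ^ (n - i)) / Real.sqrt n ^ n := by ring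
        _ = (C1 ^ n * u ^ n / Real.sqrt n ^ n) * (((n : ℝ) * T) ^ i * x i ^ (n - i)) := by
            rw [e2]; ring
        _ = _ := by rw [e3]
    rw [e1]
    refine mul_le_mul_of_nonneg_left ?_ (by positivity)
    have e4 : x i ^ (n - i) = x i ^ (n - k) * x i ^ (k - i) := by
      rw [← pow_add]; congr 1; omega
    have e5 : x i ^ (k - i) ≤ (n : ℝ) ^ (k - i) := pow_le_pow_left₀ hxi.1 hxi.2 _
    have e6 : ((n : ℝ) * T) ^ i ≤ (n : ℝ) ^ (2 * i) := by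
      rw [pow_mul]
      refine pow_le_pow_left₀ (by positivity) ?_ _
      rw [pow_two]
      exact mul_le_mul_of_nonneg_left hTn hnpos.le
    calc ((n : ℝ) * T) ^ i * x i ^ (n - i)
        = ((n : ℝ) * T) ^ i * x i ^ (k - i) * x i ^ (n - k) := by rw [e4]; ring
      _ ≤ (n : ℝ) ^ (2 * i) * (n : ℝ) ^ (k - i) * x i ^ (n - k) := by
          refine mul_le_mul_of_nonneg_right ?_ (pow_nonneg hxi.1 _)
          exact mul_le_mul e6 e5 (pow_nonneg hxi.1 _) (by positivity)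
      _ ≤ (n : ℝ) ^ (2 * k) * x i ^ (n - k) := by
          refine mul_le_mul_of_nonneg_right ?_ (pow_nonneg hxi.1 _)
          rw [← pow_add]
          exact pow_le_pow_right₀ hn1 (by omega)
  calc ∏ i ∈ Finset.range k, (C1 ^ n * ρ ^ i * (x i * u) ^ (n - i) / Real.sqrt n ^ n)
      ≤ ∏ i ∈ Finset.range k, ((q ^ n) * ((4 : ℝ) ^ n)⁻¹ *
          ((n : ℝ) ^ (2 * k) * x i ^ (n - k))) := by
        refine Finset.prod_le_prod (fun i hi => ?_) fun i hi => key i (Finset.mem_range.1 hi)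
        have hxi := hx i (Finset.mem_range.1 hi)
        have : 0 ≤ ρ := by rw [hρ]; positivity
        have := hxi.1
        positivity
    _ = _ := by
        simp only [Finset.prod_mul_distrib, Finset.prod_const, Finset.prod_pow,
          Finset.card_range]
        rw [← pow_mul (n : ℝ), show 2 * k * k = 2 * k ^ 2 by ring]

theorem num2 {C P : ℝ} {n k : ℕ} (hn : 1 ≤ n) (hk : 4 * k ≤ n) (hC : 4 ≤ C) (hP0 : 0 ≤ P)
    (hP : P ≤ 2 ^ k * (C ^ k * (n : ℝ) ^ (C * (k : ℝ) ^ 2 / n))⁻¹) :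
    (n : ℝ) ^ (2 * k ^ 2) * P ^ (n - k) ≤ 1 := by
  have hnpos : (0 : ℝ) < n := by exact_mod_cast hn
  have hn1 : (1 : ℝ) ≤ n := by exact_mod_cast hn
  set G : ℝ := (n : ℝ) ^ (C * (k : ℝ) ^ 2 / n) with hG
  have hGpos : 0 < G := Real.rpow_pos_of_pos hnpos _
  have h1 : P ≤ G⁻¹ := by
    refine hP.trans ?_
    rw [mul_inv, ← mul_assoc]
    refine mul_le_of_le_one_left (inv_nonneg.2 hGpos.le) ?_
    rw [← div_eq_mul_inv, ← div_pow]
    refine pow_le_one₀ (by positivity) ?_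
    rw [div_le_one (by linarith)]
    linarith
  have h2 : (n : ℝ) ^ (2 * k ^ 2) ≤ G ^ (n - k) := by
    rw [hG, ← Real.rpow_natCast, ← Real.rpow_natCast, ← Real.rpow_mul hnpos.le]
    refine Real.rpow_le_rpow_of_exponent_le hn1 ?_
    have hk' : (4 : ℝ) * k ≤ n := by exact_mod_cast hk
    have hsub : ((n - k : ℕ) : ℝ) = n - k := by
      rw [Nat.cast_sub (by omega)]
    rw [hsub]
    push_cast
    have h3 : 2 ≤ C * ((n : ℝ) - k) / n := by
      rw [le_div_iff₀ hnpos]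
      nlinarith
    calc 2 * (k : ℝ) ^ 2 ≤ (C * ((n : ℝ) - k) / n) * (k : ℝ) ^ 2 :=
          mul_le_mul_of_nonneg_right h3 (by positivity)
      _ = _ := by ring
  calc (n : ℝ) ^ (2 * k ^ 2) * P ^ (n - k) ≤ G ^ (n - k) * (G⁻¹) ^ (n - k) := by
        refine mul_le_mul h2 (pow_le_pow_left₀ hP0 h1 _) (pow_nonneg hP0 _) (by positivity)
    _ = 1 := by rw [← mul_pow, mul_inv_cancel₀ hGpos.ne', one_pow]

end Pool.Agent.T6.H21.PF
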