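import Pool.Agent.T6.H21.PF.R3

set_option autoImplicit false

/-!
Project PF, module R3: existence of a good random vector, and the statement R.
-/

namespace Pool.Agent.T6.H21.PF

open scoped BigOperators
open Pool.Agent.T6.H7.PF InnerProductSpace

/-- Existence of a good vector `a`. -/
theorem good_exists {C1 C q u ρ T : ℝ} {n p : ℕ} [Fact p.Prime] (h1 : R1At C1) (h2 : StmtR2)
    (hC1 : 1 ≤ C1) (hC : 4 ≤ C) (hn : 4 ≤ n) (hT1 : 1 ≤ T) (hTn : T ≤ n) (hq : 0 < q)
    (hqp : q ^ n = p) (hu : u = 1 / (4 * C1) * Real.sqrt n * q) (hρ : ρ = n * (T * u))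
    (hus : Real.sqrt n ≤ u)
    (hpk : ∀ k : ℕ, 1 ≤ k → 4 * k ≤ n → (k.factorial : ℝ) * (ρ ^ 2) ^ k < p) :
    ∃ a : Fin n → ZMod p,
      (∀ x : Fin n → ℤ, x ≠ 0 → ∑ j, a j * (x j : ZMod p) = 0 → u < ‖toE x‖) ∧
      ∀ (k : ℕ) (e : Fin k → Fin (3 * n)) (δ : ℕ → ℝ), 1 ≤ k → 4 * k ≤ n →
        (∀ i : Fin k, δ i = T / 2 ^ (e i).val) → (∀ i : Fin k, Real.sqrt n ≤ δ i * u) →
        ∏ i : Fin k, δ i ≤ 2 ^ k * (C ^ k * (n : ℝ) ^ (C * (k : ℝ) ^ 2 / n))⁻¹ →
        ¬ ∃ b ∈ tup n ρ (fun i => δ i * u) k, ∀ i, ∑ j, a j * (b i j : ZMod p) = 0 := by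
  classical
  by_contra hcon
  push Not at hcon
  have hn1 : 1 ≤ n := by omega
  have hnpos : (0 : ℝ) < n := by exact_mod_cast hn1
  have hs : 0 < Real.sqrt n := Real.sqrt_pos.2 hnpos
  have hupos : 0 < u := lt_of_lt_of_le hs hus
  have hp0 : 0 < p := (Fact.out : p.Prime).pos
  have hpR : (0 : ℝ) < p := by exact_mod_cast hp0
  have hn1R : (1 : ℝ) ≤ n := by exact_mod_cast hn1
  have huρ : u ≤ ρ := by
    rw [hρ]
    have : 1 ≤ (n : ℝ) * T := by nlinarith
    nlinarith
  -- the first bad set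
  set B0 : Set (Fin n → ZMod p) := {a | ∃ b ∈ tup n u (fun _ => u) 1,
    ∀ i, ∑ j, a j * (b i j : ZMod p) = 0} with hB0
  have hB0c : (B0.ncard : ℝ) ≤ p ^ n * (1 / 4) := by
    have ht := tup_count hC1 h1 n hn1 u (fun _ => u) 1 (fun i _ => ⟨hus, le_rfl⟩)
    have hk := hpk 1 le_rfl (by omega)
    have hk' : ((1 : ℕ).factorial : ℝ) * (u ^ 2) ^ 1 < p := by
      refine lt_of_le_of_lt ?_ hk
      simp only [Nat.factorial_one, Nat.cast_one, one_mul, pow_one]
      exact pow_le_pow_left₀ hupos.le huρ 2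
    have hb := bad_count h2 hk' (tup n u (fun _ => u) 1) ht.1 (fun b hb => hb.1)
      (fun b hb => hb.2.1)
    have hb' : (B0.ncard : ℝ) * p ≤ (tup n u (fun _ => u) 1).ncard * (p : ℝ) ^ n := by
      have : (B0.ncard * p ^ 1 : ℕ) ≤ (tup n u (fun _ => u) 1).ncard * p ^ n := hb
      rw [pow_one] at this
      exact_mod_cast this
    have hcnt : ((tup n u (fun _ => u) 1).ncard : ℝ) ≤ p * (1 / 4) := by
      refine ht.2.trans ?_
      simp only [Finset.prod_range_one, pow_zero, mul_one, Nat.sub_zero]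
      have e3 : C1 ^ n * u ^ n / Real.sqrt n ^ n = q ^ n * ((1 : ℝ) / 4) ^ n := by
        rw [← mul_pow, ← div_pow, ← mul_pow]
        congr 1
        rw [hu]
        field_simp
      rw [e3, hqp]
      refine mul_le_mul_of_nonneg_left ?_ hpR.le
      calc ((1 : ℝ) / 4) ^ n ≤ (1 / 4) ^ 1 :=
            pow_le_pow_of_le_one (by norm_num) (by norm_num) hn1
        _ = 1 / 4 := pow_one _
    have : (B0.ncard : ℝ) * p ≤ p ^ n * (1 / 4) * p := by
      calc (B0.ncard : ℝ) * p ≤ (tup n u (fun _ => u) 1).ncard * (p : ℝ) ^ n := hb'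
        _ ≤ (p * (1 / 4)) * (p : ℝ) ^ n := mul_le_mul_of_nonneg_right hcnt (by positivity)
        _ = _ := by ring
    exact le_of_mul_le_mul_right this hpR
  -- the radii of a class
  let X : ∀ k : ℕ, (Fin k → Fin (3 * n)) → ℕ → ℝ := fun k e i =>
    if h : i < k then T / 2 ^ (e ⟨i, h⟩).val else 0
  have hX : ∀ (k : ℕ) (e : Fin k → Fin (3 * n)) (i : Fin k), X k e i = T / 2 ^ (e i).val := by
    intro k e i
    simp only [X, i.isLt, dif_pos]
  let Bk : ∀ k : ℕ, (Fin k → Fin (3 * n)) → Set (Fin n → ZMod p) := fun k e =>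
    {a | (∀ i : Fin k, Real.sqrt n ≤ X k e i * u) ∧
      ∏ i : Fin k, X k e i ≤ 2 ^ k * (C ^ k * (n : ℝ) ^ (C * (k : ℝ) ^ 2 / n))⁻¹ ∧
      ∃ b ∈ tup n ρ (fun i => X k e i * u) k, ∀ i, ∑ j, a j * (b i j : ZMod p) = 0}
  have hBk : ∀ (k : ℕ) (e : Fin k → Fin (3 * n)), 1 ≤ k → 4 * k ≤ n →
      ((Bk k e).ncard : ℝ) ≤ p ^ n * ((4 : ℝ) ^ n)⁻¹ ^ k := by
    intro k e hk1 hk4
    by_cases hcond : (∀ i : Fin k, Real.sqrt n ≤ X k e i * u) ∧
      ∏ i : Fin k, X k e i ≤ 2 ^ k * (C ^ k * (n : ℝ) ^ (C * (k : ℝ) ^ 2 / n))⁻¹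
    · obtain ⟨hc1, hc2⟩ := hcond
      have hXb : ∀ i < k, 0 ≤ X k e i ∧ X k e i ≤ T := by
        intro i hi
        have := hX k e ⟨i, hi⟩
        simp only at this
        rw [this]
        refine ⟨by positivity, ?_⟩
        exact div_le_self (by linarith) (one_le_pow₀ (by norm_num))
      have ht := tup_count hC1 h1 n hn1 ρ (fun i => X k e i * u) k (fun i hi => ⟨hc1 ⟨i, hi⟩, by
        rw [hρ]
        calc X k e i * u ≤ T * u := mul_le_mul_of_nonneg_right (hXb i hi).2 hupos.le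
          _ ≤ n * (T * u) := le_mul_of_one_le_left (by positivity) hn1R⟩)
      have hb := bad_count h2 (hpk k hk1 hk4) (tup n ρ (fun i => X k e i * u) k) ht.1
        (fun b hb => hb.1) (fun b hb => hb.2.1)
      have hb' : ({a : Fin n → ZMod p | ∃ b ∈ tup n ρ (fun i => X k e i * u) k,
          ∀ i, ∑ j, a j * (b i j : ZMod p) = 0}.ncard : ℝ) * (p : ℝ) ^ k ≤
          (tup n ρ (fun i => X k e i * u) k).ncard * (p : ℝ) ^ n := by
        exact_mod_cast hb
      have hn0 := num1 (k := k) (X k e) hC1 hq hn1 (by omega) hT1 hTn hu hρ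
        (fun i hi => ⟨(hXb i hi).1, (hXb i hi).2.trans hTn⟩)
      have hP : ∏ i ∈ Finset.range k, X k e i = ∏ i : Fin k, X k e i :=
        Finset.prod_range (fun i => X k e i)
      have hn2 := num2 (P := ∏ i ∈ Finset.range k, X k e i) hn1 hk4 hC
        (Finset.prod_nonneg fun i hi => (hXb i (Finset.mem_range.1 hi)).1) (hP ▸ hc2)
      have hcnt : ((tup n ρ (fun i => X k e i * u) k).ncard : ℝ) ≤
          (p : ℝ) ^ k * ((4 : ℝ) ^ n)⁻¹ ^ k := by
        refine (ht.2.trans hn0).trans ?_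
        rw [hqp]
        exact mul_le_of_le_one_right (by positivity) hn2
      have hle : ((Bk k e).ncard : ℝ) ≤ ({a : Fin n → ZMod p |
          ∃ b ∈ tup n ρ (fun i => X k e i * u) k,
          ∀ i, ∑ j, a j * (b i j : ZMod p) = 0}.ncard : ℝ) := by
        have : (Bk k e).ncard ≤ {a : Fin n → ZMod p |
          ∃ b ∈ tup n ρ (fun i => X k e i * u) k,
          ∀ i, ∑ j, a j * (b i j : ZMod p) = 0}.ncard :=
          Set.ncard_le_ncard (fun a ha => ha.2.2) (Set.toFinite _)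
        exact_mod_cast this
      have hpk' : (0 : ℝ) < (p : ℝ) ^ k := by positivity
      have : ((Bk k e).ncard : ℝ) * (p : ℝ) ^ k ≤
          ((p : ℝ) ^ n * ((4 : ℝ) ^ n)⁻¹ ^ k) * (p : ℝ) ^ k := by
        calc ((Bk k e).ncard : ℝ) * (p : ℝ) ^ k ≤ _ :=
              mul_le_mul_of_nonneg_right hle hpk'.le
          _ ≤ _ := hb'
          _ ≤ ((p : ℝ) ^ k * ((4 : ℝ) ^ n)⁻¹ ^ k) * (p : ℝ) ^ n :=
              mul_le_mul_of_nonneg_right hcnt (by positivity)
          _ = _ := by ring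
      exact le_of_mul_le_mul_right this hpk'
    · have : Bk k e = ∅ := by
        ext a
        simp only [Set.mem_empty_iff_false, iff_false]
        intro ha
        exact hcond ⟨ha.1, ha.2.1⟩
      rw [this, Set.ncard_empty, Nat.cast_zero]
      positivity
  -- the union bound
  let F0 : Finset (Fin n → ZMod p) := (Set.toFinite B0).toFinset
  let Fk : ∀ k : ℕ, (Fin k → Fin (3 * n)) → Finset (Fin n → ZMod p) := fun k e =>
    (Set.toFinite (Bk k e)).toFinset
  have hcover : (Finset.univ : Finset (Fin n → ZMod p)) ⊆ F0 ∪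
      (Finset.Icc 1 (n / 4)).biUnion fun k =>
        (Finset.univ : Finset (Fin k → Fin (3 * n))).biUnion fun e => Fk k e := by
    intro a _
    rw [Finset.mem_union]
    by_cases ha : ∀ x : Fin n → ℤ, x ≠ 0 → ∑ j, a j * (x j : ZMod p) = 0 → u < ‖toE x‖
    · right
      obtain ⟨k, e, δ, hk1, hk4, hδ, hδs, hδP, b, hb, hab⟩ := hcon a ha
      simp only [Finset.mem_biUnion, Finset.mem_univ, true_and]
      refine ⟨k, Finset.mem_Icc.2 ⟨hk1, by omega⟩, e, ?_⟩
      simp only [Fk, Set.Finite.mem_toFinset]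
      have hXδ : ∀ i : Fin k, X k e i = δ i := fun i => by rw [hX, hδ]
      refine ⟨fun i => by rw [hXδ]; exact hδs i, ?_, b, ⟨hb.1, hb.2.1, fun i => ?_⟩, hab⟩
      · rw [Finset.prod_congr rfl fun i _ => hXδ i]
        exact hδP
      · have := hb.2.2 i
        show gsn (fun i => toE (b i)) i ≤ X k e i * u
        rw [hXδ]
        exact this
    · left
      push Not at ha
      obtain ⟨x, hx0, hx, hxu⟩ := ha
      simp only [F0, Set.Finite.mem_toFinset]
      refine ⟨fun _ => x, ⟨?_, fun _ => hxu, fun i => ?_⟩, fun _ => hx⟩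
      · refine LinearIndependent.of_subsingleton (0 : Fin 1) ?_
        intro h0
        exact hx0 (toE_inj (h0.trans toE_zero.symm))
      · have hi : i = Fin.last 0 := Subsingleton.elim _ _
        unfold gsn
        rw [hi, gs_last]
        have : (Submodule.span ℝ (Set.range fun j : Fin 0 =>
            (fun _ : Fin 1 => toE x) j.castSucc)) = ⊥ := by
          rw [Set.range_eq_empty, Submodule.span_empty]
        rw [this]
        simpa using hxu
  have hcard := Finset.card_le_card hcover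
  have hcard2 : (Finset.univ : Finset (Fin n → ZMod p)).card ≤ F0.card +
      ∑ k ∈ Finset.Icc 1 (n / 4), ∑ e : Fin k → Fin (3 * n), (Fk k e).card := by
    refine hcard.trans ((Finset.card_union_le _ _).trans ?_)
    refine Nat.add_le_add_left ?_ _
    refine Finset.card_biUnion_le.trans ?_
    exact Finset.sum_le_sum fun k _ => Finset.card_biUnion_le
  have hF0 : (F0.card : ℝ) ≤ p ^ n * (1 / 4) := by
    have : F0.card = B0.ncard := by rw [Set.ncard_eq_toFinset_card _ (Set.toFinite B0)]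
    rw [this]; exact hB0c
  have hFk : ∀ k ∈ Finset.Icc 1 (n / 4), (∑ e : Fin k → Fin (3 * n), ((Fk k e).card : ℝ)) ≤
      p ^ n * (1 / 4) ^ k := by
    intro k hk
    rw [Finset.mem_Icc] at hk
    have hk4 : 4 * k ≤ n := by omega
    have h12 := pow4 n (by omega)
    have h4n : (0 : ℝ) < 4 ^ n := by positivity
    calc (∑ e : Fin k → Fin (3 * n), ((Fk k e).card : ℝ))
        ≤ ∑ _e : Fin k → Fin (3 * n), (p ^ n * ((4 : ℝ) ^ n)⁻¹ ^ k) := by
          refine Finset.sum_le_sum fun e _ => ?_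
          have : (Fk k e).card = (Bk k e).ncard := by
            rw [Set.ncard_eq_toFinset_card _ (Set.toFinite (Bk k e))]
          rw [this]; exact hBk k e hk.1 hk4
      _ = p ^ n * ((3 * n : ℝ) * ((4 : ℝ) ^ n)⁻¹) ^ k := by
          rw [Finset.sum_const, Finset.card_univ, Fintype.card_fun, Fintype.card_fin,
            Fintype.card_fin, nsmul_eq_mul, mul_pow]
          push_cast
          ring
      _ ≤ p ^ n * (1 / 4) ^ k := by
          refine mul_le_mul_of_nonneg_left ?_ (by positivity)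
          refine pow_le_pow_left₀ (by positivity) ?_ k
          rw [← div_eq_mul_inv, div_le_div_iff₀ h4n (by norm_num)]
          linarith
  have htotal : ((p : ℝ) ^ n) ≤ p ^ n * (1 / 4) + p ^ n * (1 / 3) := by
    have e1 : ((Finset.univ : Finset (Fin n → ZMod p)).card : ℝ) = (p : ℝ) ^ n := by
      rw [Finset.card_univ, Fintype.card_fun, ZMod.card, Fintype.card_fin]
      push_cast; rfl
    have e2 : ((Finset.univ : Finset (Fin n → ZMod p)).card : ℝ) ≤ F0.card +
        ∑ k ∈ Finset.Icc 1 (n / 4), ∑ e : Fin k → Fin (3 * n), ((Fk k e).card : ℝ) := by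
      exact_mod_cast hcard2
    rw [e1] at e2
    refine e2.trans (add_le_add hF0 ?_)
    calc ∑ k ∈ Finset.Icc 1 (n / 4), ∑ e : Fin k → Fin (3 * n), ((Fk k e).card : ℝ)
        ≤ ∑ k ∈ Finset.Icc 1 (n / 4), (p : ℝ) ^ n * (1 / 4) ^ k := Finset.sum_le_sum hFk
      _ = (p : ℝ) ^ n * ∑ k ∈ Finset.Icc 1 (n / 4), ((1 : ℝ) / 4) ^ k := by
          rw [Finset.mul_sum]
      _ ≤ _ := mul_le_mul_of_nonneg_left (geom_quarter _) (by positivity)
  have hppos : (0 : ℝ) < (p : ℝ) ^ n := by positivity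
  linarith

end Pool.Agent.T6.H21.PF
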