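import Pool.Agent.T6.H7.PF.Defs

set_option autoImplicit false

/-!
Project PF, module R3: Gram-Schmidt vectors as distances to spans.
-/

namespace Pool.Agent.T6.H21.PF

open scoped BigOperators
open Pool.Agent.T6.H7.PF InnerProductSpace

theorem gs_eq {n k : ℕ} (f : Fin k → E n) (i : Fin k) :
    gramSchmidt ℝ f i = f i - (Submodule.span ℝ (f '' Set.Iio i)).starProjection (f i) := by
  have h1 : f i - gramSchmidt ℝ f i ∈ Submodule.span ℝ (f '' Set.Iio i) := by
    rw [gramSchmidt_def ℝ f i, sub_sub_cancel, ← span_gramSchmidt_Iio ℝ f i]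
    refine Submodule.sum_mem _ fun j hj => ?_
    rw [Submodule.starProjection_singleton]
    exact Submodule.smul_mem _ _ (Submodule.subset_span ⟨j, Finset.mem_Iio.1 hj, rfl⟩)
  have h2 : ∀ w ∈ Submodule.span ℝ (f '' Set.Iio i),
      inner ℝ (f i - (f i - gramSchmidt ℝ f i)) w = 0 := by
    intro w hw
    rw [sub_sub_cancel]
    induction hw using Submodule.span_induction with
    | mem x hx =>
      obtain ⟨j, hj, rfl⟩ := hx
      exact gramSchmidt_inv_triangular ℝ f hj
    | zero => simp
    | add x y _ _ hx hy => rw [inner_add_right, hx, hy, add_zero]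
    | smul a x _ hx => rw [inner_smul_right, hx, mul_zero]
  have h3 := Submodule.eq_starProjection_of_mem_of_inner_eq_zero h1 h2
  rw [h3, sub_sub_cancel]

theorem gs_init {n k : ℕ} (f : Fin (k + 1) → E n) (i : Fin k) :
    gramSchmidt ℝ (fun j : Fin k => f j.castSucc) i = gramSchmidt ℝ f i.castSucc := by
  rw [gs_eq, gs_eq]
  have : (fun j : Fin k => f j.castSucc) '' Set.Iio i = f '' Set.Iio i.castSucc := by
    ext y
    constructor
    · rintro ⟨j, hj, rfl⟩
      exact ⟨j.castSucc, by simpa using hj, rfl⟩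
    · rintro ⟨j, hj, rfl⟩
      have hj' : j < i.castSucc := hj
      have hjk : j.val < k := by
        have := Fin.lt_def.1 hj'
        have h2 := i.isLt
        simp at this
        omega
      refine ⟨⟨j.val, hjk⟩, ?_, ?_⟩
      · simp only [Set.mem_Iio]
        rw [Fin.lt_def] at hj' ⊢
        simpa using hj'
      · rfl
  rw [this]

theorem gs_last {n k : ℕ} (f : Fin (k + 1) → E n) :
    gramSchmidt ℝ f (Fin.last k) = f (Fin.last k) -
      (Submodule.span ℝ (Set.range fun j : Fin k => f j.castSucc)).starProjection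
        (f (Fin.last k)) := by
  rw [gs_eq]
  have : f '' Set.Iio (Fin.last k) = Set.range fun j : Fin k => f j.castSucc := by
    ext y
    constructor
    · rintro ⟨j, hj, rfl⟩
      have hj' : j < Fin.last k := hj
      exact ⟨⟨j.val, by simpa [Fin.lt_def] using hj'⟩, rfl⟩
    · rintro ⟨j, rfl⟩
      exact ⟨j.castSucc, by simp [Fin.castSucc_lt_last], rfl⟩
  rw [this]

end Pool.Agent.T6.H21.PF
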