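import Pool.Agent.T6.H21.PF.Bad

set_option autoImplicit false

/-!
Project PF, module R3: the random lattice.
-/

namespace Pool.Agent.T6.H21.PF

open scoped BigOperators
open Pool.Agent.T6.H7.PF InnerProductSpace

theorem toE_zero {n : ℕ} : toE (0 : Fin n → ℤ) = 0 := by
  ext i; simp [toE]

theorem toE_add {n : ℕ} (x y : Fin n → ℤ) : toE (x + y) = toE x + toE y := by
  ext i; simp [toE]

theorem toE_neg {n : ℕ} (x : Fin n → ℤ) : toE (-x) = -toE x := by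
  ext i; simp [toE]

theorem toE_sub {n : ℕ} (x y : Fin n → ℤ) : toE (x - y) = toE x - toE y := by
  ext i; simp [toE]

theorem toE_inj {n : ℕ} {x y : Fin n → ℤ} (h : toE x = toE y) : x = y := by
  ext i
  have := congrArg (fun z : E n => z i) h
  simpa [toE] using this

/-- The random lattice. -/
def lat {n p : ℕ} (a : Fin n → ZMod p) : AddSubgroup (E n) where
  carrier := {y | ∃ x : Fin n → ℤ, toE x = y ∧ ∑ j, a j * (x j : ZMod p) = 0}
  zero_mem' := ⟨0, toE_zero, by simp⟩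
  add_mem' := by
    rintro _ _ ⟨x, rfl, hx⟩ ⟨y, rfl, hy⟩
    refine ⟨x + y, toE_add x y, ?_⟩
    simp only [Pi.add_apply, Int.cast_add, mul_add, Finset.sum_add_distrib, hx, hy, add_zero]
  neg_mem' := by
    rintro _ ⟨x, rfl, hx⟩
    refine ⟨-x, toE_neg x, ?_⟩
    simp only [Pi.neg_apply, Int.cast_neg, mul_neg, Finset.sum_neg_distrib, hx, neg_zero]

theorem mem_lat {n p : ℕ} {a : Fin n → ZMod p} {y : E n} :
    y ∈ lat a ↔ ∃ x : Fin n → ℤ, toE x = y ∧ ∑ j, a j * (x j : ZMod p) = 0 := Iff.rfl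

theorem fin_int {C : ℝ} (h : R1At C) (n : ℕ) (hn : 1 ≤ n) (r : ℝ) :
    {x : Fin n → ℤ | ‖toE x‖ ≤ r}.Finite := by
  refine ((h n ⊥ (max r (Real.sqrt n)) (max r (Real.sqrt n)) hn (le_max_right _ _)
    le_rfl).1).subset ?_
  intro x hx
  have hx' : ‖toE x‖ ≤ r := hx
  refine ⟨hx'.trans (le_max_left _ _), ?_⟩
  have : (⊥ : Submodule ℝ (E n)).starProjection (toE x) = 0 := by
    simp
  rw [this, sub_zero]
  exact hx'.trans (le_max_left _ _)

theorem finBalls_lat {C : ℝ} (h : R1At C) {n p : ℕ} (hn : 1 ≤ n) (a : Fin n → ZMod p) :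
    FinBalls (lat a) := by
  intro r
  refine ((fin_int h n hn r).image toE).subset ?_
  rintro _ ⟨⟨x, rfl, _⟩, hr⟩
  exact ⟨x, hr, rfl⟩

theorem norm_cube {n : ℕ} {x y : Fin n → ℤ} {s : ℝ} (hs : 0 ≤ s)
    (hx : ∀ i, 0 ≤ x i ∧ (x i : ℝ) ≤ s) (hy : ∀ i, 0 ≤ y i ∧ (y i : ℝ) ≤ s) :
    ‖toE (x - y)‖ ≤ Real.sqrt n * s := by
  rw [EuclideanSpace.norm_eq]
  have h1 : ∑ i, ‖(toE (x - y)) i‖ ^ 2 ≤ n * s ^ 2 := by
    have : ∀ i : Fin n, ‖(toE (x - y)) i‖ ^ 2 ≤ s ^ 2 := by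
      intro i
      have h0 : (toE (x - y)) i = (x i : ℝ) - y i := by simp [toE]
      rw [h0, Real.norm_eq_abs]
      refine pow_le_pow_left₀ (abs_nonneg _) ?_ 2
      have h1 := hx i
      have h2 := hy i
      have h3 : (0 : ℝ) ≤ x i := by exact_mod_cast h1.1
      have h4 : (0 : ℝ) ≤ y i := by exact_mod_cast h2.1
      rw [abs_le]
      constructor <;> linarith [h1.2, h2.2]
    calc ∑ i, ‖(toE (x - y)) i‖ ^ 2 ≤ ∑ _i : Fin n, s ^ 2 := Finset.sum_le_sum fun i _ => this i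
      _ = n * s ^ 2 := by simp
  calc Real.sqrt (∑ i, ‖(toE (x - y)) i‖ ^ 2) ≤ Real.sqrt (n * s ^ 2) := Real.sqrt_le_sqrt h1
    _ = Real.sqrt n * s := by
      rw [Real.sqrt_mul (by positivity), Real.sqrt_sq hs]

theorem cnt_lat {C : ℝ} (h : R1At C) {n p : ℕ} (hn : 1 ≤ n) (hp : 0 < p) (a : Fin n → ZMod p)
    {s r : ℝ} (hs : 0 ≤ s) (hr : Real.sqrt n * s ≤ r) :
    s ^ n / p ≤ (cnt (lat a) r : ℝ) := by
  classical
  have : NeZero p := ⟨hp.ne'⟩
  let cube : Finset (Fin n → ℤ) := Fintype.piFinset fun _ => Finset.Icc (0 : ℤ) ⌊s⌋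
  have hfl : (0 : ℤ) ≤ ⌊s⌋ := Int.floor_nonneg.2 hs
  have hcard : s ^ n ≤ (cube.card : ℝ) := by
    simp only [cube, Fintype.card_piFinset, Int.card_Icc, Finset.prod_const, Finset.card_univ,
      Fintype.card_fin]
    push_cast
    refine pow_le_pow_left₀ hs ?_ n
    have h1 : (((⌊s⌋ + 1 - 0).toNat : ℕ) : ℤ) = ⌊s⌋ + 1 := by
      rw [Int.toNat_of_nonneg] <;> omega
    have h2 : (((⌊s⌋ + 1 - 0).toNat : ℕ) : ℝ) = (⌊s⌋ : ℝ) + 1 := by
      exact_mod_cast congrArg (fun z : ℤ => (z : ℝ)) h1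
    rw [h2]
    exact (Int.lt_floor_add_one s).le
  have hcube : ∀ x ∈ cube, ∀ i, 0 ≤ x i ∧ (x i : ℝ) ≤ s := by
    intro x hx i
    have := Fintype.mem_piFinset.1 hx i
    rw [Finset.mem_Icc] at this
    exact ⟨this.1, (by exact_mod_cast this.2 : (x i : ℝ) ≤ (⌊s⌋ : ℝ)).trans (Int.floor_le s)⟩
  have hp' : (0 : ℝ) < p := by exact_mod_cast hp
  obtain ⟨c, -, hc⟩ := Finset.exists_le_card_fiber_of_nsmul_le_card_of_maps_to
    (s := cube) (t := (Finset.univ : Finset (ZMod p)))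
    (f := fun x => ∑ j, a j * (x j : ZMod p)) (b := (cube.card : ℝ) / p)
    (fun _ _ => Finset.mem_univ _) ⟨0, Finset.mem_univ _⟩ (by
      rw [Finset.card_univ, ZMod.card, nsmul_eq_mul]
      rw [mul_div_cancel₀ _ hp'.ne'])
  set Fb := cube.filter fun x => ∑ j, a j * (x j : ZMod p) = c with hFb
  have hcube0 : (0 : ℝ) < cube.card := by
    have : (0 : Fin n → ℤ) ∈ cube := by
      simp only [cube, Fintype.mem_piFinset, Finset.mem_Icc, Pi.zero_apply]
      exact fun _ => ⟨le_rfl, hfl⟩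
    exact_mod_cast Finset.card_pos.2 ⟨_, this⟩
  have hFpos : 0 < Fb.card := by
    have : (0 : ℝ) < Fb.card := lt_of_lt_of_le (by positivity) hc
    exact_mod_cast this
  obtain ⟨x0, hx0⟩ := Finset.card_pos.1 hFpos
  have hx0' := Finset.mem_filter.1 hx0
  have hle : Fb.card ≤ cnt (lat a) r := by
    unfold cnt
    have hinj : Set.InjOn (fun x : Fin n → ℤ => toE (x - x0)) (Fb : Set (Fin n → ℤ)) := by
      intro x _ y _ hxy
      have := toE_inj hxy
      exact sub_left_injective this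
    rw [← Set.ncard_coe_finset Fb, ← hinj.ncard_image]
    refine Set.ncard_le_ncard ?_ (finBalls_lat h hn a r)
    rintro _ ⟨x, hx, rfl⟩
    have hx' := Finset.mem_filter.1 (Finset.mem_coe.1 hx)
    refine ⟨⟨x - x0, rfl, ?_⟩, ?_⟩
    · simp only [Pi.sub_apply, Int.cast_sub, mul_sub, Finset.sum_sub_distrib]
      rw [hx'.2, hx0'.2, sub_self]
    · exact (norm_cube hs (hcube x hx'.1) (hcube x0 hx0'.1)).trans hr
  calc s ^ n / p ≤ (cube.card : ℝ) / p := div_le_div_of_nonneg_right hcard hp'.le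
    _ ≤ Fb.card := hc
    _ ≤ _ := by exact_mod_cast hle

theorem geom_quarter (m : ℕ) : ∑ k ∈ Finset.Icc 1 m, ((1 : ℝ) / 4) ^ k ≤ 1 / 3 := by
  have : ∀ m : ℕ, ∑ k ∈ Finset.Icc 1 m, ((1 : ℝ) / 4) ^ k = 1 / 3 * (1 - (1 / 4) ^ m) := by
    intro m
    induction m with
    | zero => simp
    | succ m ih =>
      rw [Finset.sum_Icc_succ_top (by omega), ih]
      ring
  rw [this m]
  have : (0 : ℝ) ≤ (1 / 4) ^ m := by positivity
  linarith

theorem pow4 (n : ℕ) (hn : 3 ≤ n) : 12 * (n : ℝ) ≤ 4 ^ n := by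
  induction n, hn using Nat.le_induction with
  | base => norm_num
  | succ n hn ih =>
    rw [pow_succ]
    have : (3 : ℝ) ≤ n := by exact_mod_cast hn
    push_cast
    nlinarith

end Pool.Agent.T6.H21.PF
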