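import Pool.Agent.T6.H21.PF.Good

set_option autoImplicit false

/-!
Project PF, module R3: the statement R.
-/

namespace Pool.Agent.T6.H21.PF

open scoped BigOperators
open Pool.Agent.T6.H7.PF InnerProductSpace

/-- The Gram-Schmidt norms of a reduced family of a separated subgroup are not small. -/
theorem gsn_lower {n k : ℕ} {u : ℝ} (hu : 0 < u) (b : Fin k → E n) (hkn : k ≤ n)
    (h0 : ∀ i, u ≤ ‖b i‖)
    (h34 : ∀ i j : Fin k, i.val + 1 = j.val → 3 / 4 * gsn b i ^ 2 ≤ gsn b j ^ 2) (i : Fin k) :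
    u / 2 ^ n ≤ gsn b i := by
  have hnn : ∀ i, 0 ≤ gsn b i := fun i => norm_nonneg _
  have key : ∀ m : ℕ, ∀ hm : m < k, (1 / 4 : ℝ) ^ m * u ^ 2 ≤ gsn b ⟨m, hm⟩ ^ 2 := by
    intro m
    induction m with
    | zero =>
      intro hm
      have : gramSchmidt ℝ b ⟨0, hm⟩ = b ⟨0, hm⟩ := by
        rw [gs_eq]
        have : b '' Set.Iio (⟨0, hm⟩ : Fin k) = ∅ := by
          ext y
          constructor
          · rintro ⟨j, hj, _⟩
            exact absurd (Fin.lt_def.1 (show j < ⟨0, hm⟩ from hj)) (Nat.not_lt_zero _)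
          · intro h; exact h.elim
        rw [this, Submodule.span_empty]
        simp
      unfold gsn
      rw [this, pow_zero, one_mul]
      exact pow_le_pow_left₀ hu.le (h0 _) 2
    | succ m ih =>
      intro hm
      have h1 := ih (by omega)
      have h2 := h34 ⟨m, by omega⟩ ⟨m + 1, hm⟩ rfl
      rw [pow_succ]
      nlinarith [sq_nonneg (gsn b ⟨m, by omega⟩)]
  have h1 := key i.val i.isLt
  have h2 : (u / 2 ^ n) ^ 2 ≤ gsn b i ^ 2 := by
    refine le_trans ?_ h1
    have e1 : (u / 2 ^ n) ^ 2 = (1 / 4 : ℝ) ^ n * u ^ 2 := by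
      rw [div_pow, ← pow_mul, mul_comm n 2, pow_mul, one_div, inv_pow]
      norm_num
      ring
    rw [e1]
    refine mul_le_mul_of_nonneg_right ?_ (sq_nonneg _)
    exact pow_le_pow_of_le_one (by norm_num) (by norm_num) (by omega)
  exact (pow_le_pow_iff_left₀ (by positivity) (hnn i) two_ne_zero).1 h2

theorem stmR : StmtR1 → StmtR2 → StmtR := by
  rintro ⟨C1, hC1, h1⟩ h2
  refine ⟨4 * C1 + 4, by linarith, ?_⟩
  intro n T hn hT1 hTn
  by_cases h3 : n ≤ 3
  · have hbal : ∀ r : ℝ, bal (⊥ : AddSubgroup (E n)) r ⊆ {0} := by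
      intro r x hx
      exact AddSubgroup.mem_bot.1 hx.1
    refine ⟨⊥, 1, one_pos, fun r => (Set.finite_singleton _).subset (hbal r), ?_, ?_, ?_⟩
    · intro x hx h0
      exact absurd (AddSubgroup.mem_bot.1 hx) h0
    · have hc : cnt (⊥ : AddSubgroup (E n)) (T * 1) = 1 := by
        unfold cnt
        have : bal (⊥ : AddSubgroup (E n)) (T * 1) = {0} := by
          refine Set.Subset.antisymm (hbal _) ?_
          rintro x hx
          rw [Set.mem_singleton_iff] at hx
          rw [hx]
          refine ⟨zero_mem _, ?_⟩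
          rw [norm_zero]; linarith
        rw [this, Set.ncard_singleton]
      rw [hc, Nat.cast_one]
      refine pow_le_one₀ (by positivity) ?_
      rw [div_le_one (by linarith)]
      have : (n : ℝ) ≤ 3 := by exact_mod_cast h3
      linarith
    · intro k b hk _ _ _ _ _
      have hk0 : k = 0 := by omega
      subst hk0
      simp
  · -- the main case
    have hn4 : 4 ≤ n := by omega
    have hnpos : (0 : ℝ) < n := by exact_mod_cast hn
    have hn1R : (1 : ℝ) ≤ n := by exact_mod_cast hn
    set W : ℕ := n.factorial * n ^ (5 * n) with hW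
    obtain ⟨p, hpN, hpp⟩ := Nat.exists_infinite_primes
      (⌈(2 ^ n * (4 * C1)) ^ n⌉₊ + (W ^ 2 + 1))
    have : Fact p.Prime := ⟨hpp⟩
    have hp0 : 0 < p := hpp.pos
    have hpR : (0 : ℝ) < p := by exact_mod_cast hp0
    set q : ℝ := (p : ℝ) ^ ((n : ℝ)⁻¹) with hqdef
    have hq : 0 < q := Real.rpow_pos_of_pos hpR _
    have hqp : q ^ n = p := Real.rpow_inv_natCast_pow hpR.le (by omega)
    have hp1 : (2 ^ n * (4 * C1)) ^ n ≤ (p : ℝ) := by
      refine (Nat.le_ceil _).trans ?_
      exact_mod_cast (Nat.le_add_right _ _).trans hpN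
    have hpW : (W : ℝ) ^ 2 < p := by
      have : W ^ 2 < p := by omega
      exact_mod_cast this
    have hq2 : 2 ^ n * (4 * C1) ≤ q := by
      refine (pow_le_pow_iff_left₀ (by positivity) hq.le (by omega : n ≠ 0)).1 ?_
      rw [hqp]; exact hp1
    have hq1 : 1 ≤ q := by
      refine le_trans ?_ hq2
      have : (1 : ℝ) ≤ 2 ^ n := one_le_pow₀ (by norm_num)
      nlinarith
    set u : ℝ := 1 / (4 * C1) * Real.sqrt n * q with hu
    set ρ : ℝ := n * (T * u) with hρ
    have hs : 0 < Real.sqrt n := Real.sqrt_pos.2 hnpos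
    have hu2 : Real.sqrt n * 2 ^ n ≤ u := by
      rw [hu]
      have : (2 : ℝ) ^ n ≤ 1 / (4 * C1) * q := by
        rw [one_div, ← div_eq_inv_mul, le_div_iff₀ (by positivity)]
        exact hq2
      calc Real.sqrt n * 2 ^ n ≤ Real.sqrt n * (1 / (4 * C1) * q) :=
            mul_le_mul_of_nonneg_left this hs.le
        _ = _ := by ring
    have hus : Real.sqrt n ≤ u := by
      refine le_trans ?_ hu2
      exact le_mul_of_one_le_right hs.le (one_le_pow₀ (by norm_num))
    have hupos : 0 < u := lt_of_lt_of_le hs hus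
    have hρ2 : ρ ^ 2 ≤ (n : ℝ) ^ 5 * q ^ 2 := by
      have e1 : ρ ^ 2 = (n : ℝ) ^ 3 * T ^ 2 * (1 / (4 * C1)) ^ 2 * q ^ 2 := by
        rw [hρ, hu]
        have : Real.sqrt n ^ 2 = n := Real.sq_sqrt hnpos.le
        calc ((n : ℝ) * (T * (1 / (4 * C1) * Real.sqrt n * q))) ^ 2
            = (n : ℝ) ^ 2 * T ^ 2 * (1 / (4 * C1)) ^ 2 * Real.sqrt n ^ 2 * q ^ 2 := by ring
          _ = _ := by rw [this]; ring
      rw [e1]
      refine mul_le_mul_of_nonneg_right ?_ (by positivity)
      have e2 : (1 / (4 * C1)) ^ 2 ≤ 1 := by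
        refine pow_le_one₀ (by positivity) ?_
        rw [div_le_one (by linarith)]; linarith
      have e3 : T ^ 2 ≤ (n : ℝ) ^ 2 := pow_le_pow_left₀ (by linarith) hTn 2
      calc (n : ℝ) ^ 3 * T ^ 2 * (1 / (4 * C1)) ^ 2 ≤ (n : ℝ) ^ 3 * (n : ℝ) ^ 2 * 1 := by
            refine mul_le_mul (mul_le_mul_of_nonneg_left e3 (by positivity)) e2 (by positivity)
              (by positivity)
        _ = _ := by ring
    have hpk : ∀ k : ℕ, 1 ≤ k → 4 * k ≤ n → (k.factorial : ℝ) * (ρ ^ 2) ^ k < p := by
      intro k _ hk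
      have e1 : (k.factorial : ℝ) * (ρ ^ 2) ^ k ≤ W * q ^ (2 * k) := by
        have f1 : (k.factorial : ℝ) ≤ n.factorial := by
          exact_mod_cast Nat.factorial_le (by omega : k ≤ n)
        have f2 : (ρ ^ 2) ^ k ≤ (n : ℝ) ^ (5 * n) * q ^ (2 * k) := by
          calc (ρ ^ 2) ^ k ≤ ((n : ℝ) ^ 5 * q ^ 2) ^ k :=
                pow_le_pow_left₀ (sq_nonneg _) hρ2 k
            _ = (n : ℝ) ^ (5 * k) * q ^ (2 * k) := by rw [mul_pow, ← pow_mul, ← pow_mul]
            _ ≤ _ := mul_le_mul_of_nonneg_right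
                (pow_le_pow_right₀ hn1R (by omega)) (by positivity)
        rw [hW]
        push_cast
        calc (k.factorial : ℝ) * (ρ ^ 2) ^ k
            ≤ n.factorial * ((n : ℝ) ^ (5 * n) * q ^ (2 * k)) :=
              mul_le_mul f1 f2 (by positivity) (by positivity)
          _ = _ := by ring
      refine lt_of_le_of_lt e1 ?_
      have e2 : ((W : ℝ) * q ^ (2 * k)) ^ 2 < (p : ℝ) ^ 2 := by
        have f3 : (q ^ (2 * k)) ^ 2 ≤ p := by
          rw [← pow_mul, ← hqp]
          exact pow_le_pow_right₀ hq1 (by omega)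
        rw [mul_pow, pow_two (p : ℝ)]
        calc (W : ℝ) ^ 2 * (q ^ (2 * k)) ^ 2 ≤ (W : ℝ) ^ 2 * p :=
              mul_le_mul_of_nonneg_left f3 (by positivity)
          _ < p * p := mul_lt_mul_of_pos_right hpW hpR
      exact lt_of_pow_lt_pow_left₀ 2 hpR.le e2
    obtain ⟨a, ha1, ha2⟩ := good_exists (C := 4 * C1 + 4) h1 h2 hC1 (by linarith) hn4 hT1 hTn
      hq hqp hu hρ hus hpk
    have hmin : ∀ x ∈ lat a, x ≠ 0 → u ≤ ‖x‖ := by
      rintro _ ⟨x, rfl, hx⟩ h0
      refine (ha1 x ?_ hx).le
      rintro rfl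
      exact h0 toE_zero
    refine ⟨lat a, u, hupos, finBalls_lat h1 hn a, hmin, ?_, ?_⟩
    · have hc := cnt_lat h1 hn hp0 a (s := T * u / Real.sqrt n) (r := T * u) (by positivity)
        (by rw [mul_div_cancel₀ _ hs.ne'])
      refine le_trans ?_ hc
      have e1 : T * u / Real.sqrt n = T * (1 / (4 * C1)) * q := by
        rw [hu]; field_simp
      rw [e1, mul_pow, hqp, mul_div_assoc, div_self hpR.ne', mul_one]
      refine pow_le_pow_left₀ (by positivity) ?_ n
      rw [mul_one_div]
      exact div_le_div_of_nonneg_left (by linarith) (by positivity) (by linarith)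
    · intro k b hk hbL hLI hbn hgs h34
      by_contra hcon
      push Not at hcon
      have hk1 : 1 ≤ k := by
        by_contra h0
        have : k = 0 := by omega
        subst this
        simp at hcon
      choose x hxb hx using fun i => (mem_lat.1 (hbL i))
      have hb0 : ∀ i, u ≤ ‖b i‖ := fun i => hmin _ (hbL i) (hLI.ne_zero i)
      have hlow := gsn_lower hupos b (by omega) hb0 h34
      have hTu : 0 < T * u := by positivity
      have hgpos : ∀ i, 0 < gsn b i := fun i => lt_of_lt_of_le (by positivity) (hlow i)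
      have hex : ∀ i : Fin k, ∃ e : ℕ, (2 : ℝ) ^ e ≤ T * u / gsn b i ∧
          T * u / gsn b i < 2 ^ (e + 1) := fun i =>
        exists_nat_pow_near ((one_le_div (hgpos i)).2 (hgs i)) (by norm_num)
      choose e he1 he2 using hex
      have he3 : ∀ i, e i < 3 * n := by
        intro i
        have f1 : T * u / gsn b i ≤ (2 : ℝ) ^ (2 * n) := by
          rw [div_le_iff₀ (hgpos i)]
          have f2 := hlow i
          have f3 : T ≤ (2 : ℝ) ^ n := by
            refine hTn.trans ?_
            exact_mod_cast Nat.lt_two_pow_self.le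
          calc T * u ≤ 2 ^ n * u := mul_le_mul_of_nonneg_right f3 hupos.le
            _ = 2 ^ (2 * n) * (u / 2 ^ n) := by
                rw [two_mul, pow_add]; field_simp
            _ ≤ _ := mul_le_mul_of_nonneg_left f2 (by positivity)
        have f4 : (2 : ℝ) ^ (e i) ≤ 2 ^ (2 * n) := (he1 i).trans f1
        have f5 : e i ≤ 2 * n := (pow_le_pow_iff_right₀ (by norm_num : (1 : ℝ) < 2)).1 f4
        omega
      let δ : ℕ → ℝ := fun i => if h : i < k then T / 2 ^ (e ⟨i, h⟩) else 0
      have hδ : ∀ i : Fin k, δ i = T / 2 ^ (e i) := by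
        intro i
        simp only [δ, i.isLt, dif_pos]
      have hup : ∀ i : Fin k, gsn b i ≤ δ i * u := by
        intro i
        rw [hδ, div_mul_eq_mul_div, le_div_iff₀ (by positivity)]
        have := he1 i
        rw [le_div_iff₀ (hgpos i)] at this
        linarith
      have hdn : ∀ i : Fin k, δ i ≤ 2 * (gsn b i / u) := by
        intro i
        have := he2 i
        rw [div_lt_iff₀ (hgpos i), pow_succ] at this
        rw [hδ, div_le_iff₀ (by positivity)]
        have h5 : T ≤ 2 * (gsn b i / u) * 2 ^ e i := by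
          rw [show 2 * (gsn b i / u) * 2 ^ e i = (2 ^ e i * 2 * gsn b i) / u by ring,
            le_div_iff₀ hupos]
          exact this.le
        exact h5
      refine ha2 k (fun i => ⟨e i, he3 i⟩) δ hk1 hk hδ (fun i => ?_) ?_ ⟨x, ⟨?_, ?_, ?_⟩, hx⟩
      · refine le_trans ?_ (hup i)
        refine le_trans ?_ (hlow i)
        rw [le_div_iff₀ (by positivity)]
        exact hu2
      · calc ∏ i : Fin k, δ i ≤ ∏ i : Fin k, (2 * (gsn b i / u)) := by
              refine Finset.prod_le_prod (fun i _ => ?_) fun i _ => hdn i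
              rw [hδ]; positivity
          _ = 2 ^ k * ∏ i : Fin k, (gsn b i / u) := by
              rw [Finset.prod_mul_distrib, Finset.prod_const, Finset.card_univ,
                Fintype.card_fin]
          _ ≤ _ := mul_le_mul_of_nonneg_left hcon.le (by positivity)
      · have : (fun i => toE (x i)) = b := funext hxb
        rw [this]; exact hLI
      · intro i
        rw [hxb]; exact hbn i
      · intro i
        have : (fun i => toE (x i)) = b := funext hxb
        rw [this]; exact hup i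

end Pool.Agent.T6.H21.PF
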