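import Pool.Agent.T6.H21.PF.Gs

set_option autoImplicit false

/-!
Project PF, module R3: counting tuples of integer vectors with bounded Gram-Schmidt norms.
-/

namespace Pool.Agent.T6.H21.PF

open scoped BigOperators
open Pool.Agent.T6.H7.PF InnerProductSpace

/-- The statement R1 for a fixed constant. -/
def R1At (C : ℝ) : Prop :=
  ∀ (n : ℕ) (V : Submodule ℝ (E n)) (ρ δ : ℝ), 1 ≤ n → Real.sqrt n ≤ δ → δ ≤ ρ →
    {x : Fin n → ℤ | ‖toE x‖ ≤ ρ ∧ ‖toE x - V.starProjection (toE x)‖ ≤ δ}.Finite ∧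
    ({x : Fin n → ℤ | ‖toE x‖ ≤ ρ ∧ ‖toE x - V.starProjection (toE x)‖ ≤ δ}.ncard : ℝ) ≤
      C ^ n * ρ ^ Module.finrank ℝ V * δ ^ (n - Module.finrank ℝ V) / Real.sqrt n ^ n

/-- Tuples of integer vectors. -/
def tup (n : ℕ) (ρ : ℝ) (δ : ℕ → ℝ) (k : ℕ) : Set (Fin k → Fin n → ℤ) :=
  {b | LinearIndependent ℝ (fun i => toE (b i)) ∧ (∀ i, ‖toE (b i)‖ ≤ ρ) ∧
    ∀ i, gsn (fun i => toE (b i)) i ≤ δ i}

theorem tup_count {C : ℝ} (hC : 1 ≤ C) (h : R1At C) (n : ℕ) (hn : 1 ≤ n) (ρ : ℝ) (δ : ℕ → ℝ) :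
    ∀ k : ℕ, (∀ i < k, Real.sqrt n ≤ δ i ∧ δ i ≤ ρ) →
      (tup n ρ δ k).Finite ∧ ((tup n ρ δ k).ncard : ℝ) ≤
        ∏ i ∈ Finset.range k, (C ^ n * ρ ^ i * δ i ^ (n - i) / Real.sqrt n ^ n) := by
  intro k
  induction k with
  | zero =>
    intro _
    refine ⟨Set.toFinite _, ?_⟩
    simp only [Finset.range_zero, Finset.prod_empty]
    have : (tup n ρ δ 0).ncard ≤ 1 := by
      refine (Set.ncard_le_one (Set.toFinite _)).2 fun a _ b _ => Subsingleton.elim _ _
    exact_mod_cast this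
  | succ k ih =>
    intro hδ
    obtain ⟨hf, hc⟩ := ih (fun i hi => hδ i (by omega))
    have hd := hδ k (Nat.lt_succ_self k)
    classical
    let V : (Fin k → Fin n → ℤ) → Submodule ℝ (E n) := fun b =>
      Submodule.span ℝ (Set.range fun j : Fin k => toE (b j))
    let S : (Fin k → Fin n → ℤ) → Finset (Fin n → ℤ) := fun b =>
      (h n (V b) ρ (δ k) hn hd.1 hd.2).1.toFinset
    let F : Finset (Fin k → Fin n → ℤ) := hf.toFinset
    let U : Finset (Fin (k + 1) → Fin n → ℤ) :=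
      F.biUnion fun b => (S b).image fun x => (Fin.snoc b x : Fin (k + 1) → Fin n → ℤ)
    have hsub : tup n ρ δ (k + 1) ⊆ ↑U := by
      intro b hb
      obtain ⟨h1, h2, h3⟩ := hb
      simp only [U, Finset.coe_biUnion, Set.mem_iUnion, Finset.coe_image, Set.mem_image,
        exists_prop, Finset.mem_coe]
      refine ⟨fun j => b j.castSucc, ?_, b (Fin.last k), ?_, ?_⟩
      · simp only [F, Set.Finite.mem_toFinset]
        refine ⟨?_, fun i => h2 _, fun i => ?_⟩
        · exact h1.comp _ (Fin.castSucc_injective k)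
        · have := h3 i.castSucc
          unfold gsn at this ⊢
          rw [gs_init (fun i => toE (b i)) i]
          simpa using this
      · simp only [S, Set.Finite.mem_toFinset, Set.mem_setOf_eq]
        refine ⟨h2 _, ?_⟩
        have := h3 (Fin.last k)
        unfold gsn at this
        rw [gs_last (fun i => toE (b i))] at this
        simpa [V] using this
      · exact Fin.snoc_init_self b
    have hfin : (tup n ρ δ (k + 1)).Finite := U.finite_toSet.subset hsub
    refine ⟨hfin, ?_⟩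
    have hρ : 0 ≤ ρ := (Real.sqrt_nonneg _).trans (hd.1.trans hd.2)
    have hδ0 : 0 ≤ δ k := (Real.sqrt_nonneg _).trans hd.1
    have hcard : ((tup n ρ δ (k + 1)).ncard : ℝ) ≤ ∑ b ∈ F, ((S b).card : ℝ) := by
      have h1 : (tup n ρ δ (k + 1)).ncard ≤ U.card := by
        rw [← Set.ncard_coe_finset U]
        exact Set.ncard_le_ncard hsub U.finite_toSet
      have h2 : U.card ≤ ∑ b ∈ F, (S b).card :=
        Finset.card_biUnion_le.trans (Finset.sum_le_sum fun b _ => Finset.card_image_le)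
      exact_mod_cast h1.trans h2
    have hS : ∀ b ∈ F, ((S b).card : ℝ) ≤ C ^ n * ρ ^ k * δ k ^ (n - k) / Real.sqrt n ^ n := by
      intro b hb
      have hb' : b ∈ tup n ρ δ k := by simpa [F] using hb
      have hr := (h n (V b) ρ (δ k) hn hd.1 hd.2).2
      have hfr : Module.finrank ℝ (V b) = k := by
        have := finrank_span_eq_card hb'.1
        simpa [V] using this
      rw [hfr] at hr
      have h5 : (S b).card = {x : Fin n → ℤ | ‖toE x‖ ≤ ρ ∧
          ‖toE x - (V b).starProjection (toE x)‖ ≤ δ k}.ncard := by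
        rw [Set.ncard_eq_toFinset_card _ (h n (V b) ρ (δ k) hn hd.1 hd.2).1]
      rw [h5]
      exact hr
    rw [Finset.prod_range_succ]
    calc ((tup n ρ δ (k + 1)).ncard : ℝ) ≤ ∑ b ∈ F, ((S b).card : ℝ) := hcard
      _ ≤ ∑ _b ∈ F, (C ^ n * ρ ^ k * δ k ^ (n - k) / Real.sqrt n ^ n) := Finset.sum_le_sum hS
      _ = (F.card : ℝ) * (C ^ n * ρ ^ k * δ k ^ (n - k) / Real.sqrt n ^ n) := by
          rw [Finset.sum_const, nsmul_eq_mul]
      _ ≤ _ := by
          refine mul_le_mul_of_nonneg_right ?_ (by positivity)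
          rw [← Set.ncard_eq_toFinset_card _ hf]
          exact hc

end Pool.Agent.T6.H21.PF
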